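import Pool.Agent.FC9311.Final

/-!
The growth of the relative maximal dimension gap of self-affine (Baranski) sponges:
`⌊(d-1)/2⌋ - 1 ≤ MDG'(d) ≤ (d-2)/2`, so `MDG'(d) / d → 1/2`.
-/

namespace Pool.Agent.Results.MP_fc9311_an.Asymptotics

open Pool.Agent.FC9311 Filter Topology
open scoped ENNReal

theorem result :
    (∀ d : ℕ, 3 ≤ d → (((d - 1) / 2 - 1 : ℕ) : ℝ≥0∞) ≤ MDG d) ∧
    (∀ d : ℕ, 2 ≤ d → MDG d ≤ ((d - 2 : ℕ) : ℝ≥0∞) / 2) ∧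
    Tendsto (fun d : ℕ => MDG d / d) atTop (𝓝 (1 / 2)) :=
  ⟨Cyc.MDG_ge, MDG_le, MDG_div_tendsto⟩

end Pool.Agent.Results.MP_fc9311_an.Asymptotics
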